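import Pool.Agent.Helper93.ET.St

/-! # Project ET (MP_b1e6de_al), module MAT: matrix identities -/

set_option autoImplicit false

noncomputable section

namespace Pool.Agent.Helper80.ET

open Pool.Agent.Helper93.ET MvPolynomial Matrix

theorem exists_hom (A : Type) [CommRing A] [Nontrivial A] (p a : ℕ) (hp : p.Prime) (h0 : (p : A) = 0) :
    ∃ φ : A →+* A, ∀ x, φ x = x ^ (p ^ a) := by
  have : Fact p.Prime := ⟨hp⟩
  have : CharP A p := (CharP.charP_iff_prime_eq_zero hp).2 h0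
  exact ⟨iterateFrobenius A p a, fun x => by rw [iterateFrobenius_def]⟩

theorem fr_eq {m n A : Type} [CommRing A] {q : ℕ} {φ : A →+* A} (hφ : ∀ x, φ x = x ^ q) (M : Matrix m n A) :
    fr q M = M.map φ := by
  ext i j
  simp [fr, hφ]

theorem hMAT : StMAT := by
  intro A _ p a n k hp h0
  rcases subsingleton_or_nontrivial A with hA | hA
  · intro D
    refine ⟨?_, ?_, ?_, ?_, ?_, ?_, ?_, ?_, ?_, ?_, ?_, ?_⟩ <;> exact Subsingleton.elim _ _
  obtain ⟨φ, hφ⟩ := exists_hom A p a hp h0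
  generalize p ^ a = q at hφ ⊢
  intro D
  have fmul : ∀ {l m o : Type} [Fintype m] (M : Matrix l m A) (N : Matrix m o A),
      fr q (M * N) = fr q M * fr q N := by
    intro l m o _ M N
    rw [fr_eq hφ, fr_eq hφ, fr_eq hφ, Matrix.map_mul]
  have fone : ∀ {m : Type} [DecidableEq m], fr q (1 : Matrix m m A) = 1 := by
    intro m _
    rw [fr_eq hφ]
    exact Matrix.map_one φ (map_zero φ) (map_one φ)
  have fzero : ∀ {l m : Type}, fr q (0 : Matrix l m A) = 0 := by
    intro l m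
    rw [fr_eq hφ]
    exact Matrix.map_zero φ (map_zero φ)
  have fsub : ∀ {l m : Type} (M N : Matrix l m A), fr q (M - N) = fr q M - fr q N := by
    intro l m M N
    rw [fr_eq hφ, fr_eq hφ, fr_eq hφ]
    exact Matrix.map_sub φ (map_sub φ) M N
  have h2 : D.V * D.e = 0 := by
    rw [Dat.e, Matrix.mul_sub, Matrix.mul_one, ← Matrix.mul_assoc, D.VW, Matrix.one_mul, sub_self]
  have h3 : D.e * D.W = 0 := by
    rw [Dat.e, Matrix.sub_mul, Matrix.one_mul, Matrix.mul_assoc, D.VW, Matrix.mul_one, sub_self]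
  have h1 : D.e * D.e = D.e := by
    conv_lhs => rw [Dat.e, Matrix.sub_mul, Matrix.one_mul, Matrix.mul_assoc]
    rw [← Dat.e, h2, Matrix.mul_zero, sub_zero]
  have h4 : D.F * D.e = D.F := by
    rw [Dat.F, Matrix.mul_assoc, h1]
  have h5 : D.F * D.W = 0 := by
    rw [Dat.F, Matrix.mul_assoc, h3, Matrix.mul_zero]
  have fe : fr q D.e = 1 - fr q D.W * fr q D.V := by
    rw [Dat.e, fsub, fone, fmul]
  have h6 : D.G * D.F = D.e := by
    have e1 : fr q D.V * (D.gi * D.e) = 0 := by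
      rw [D.frV, Matrix.mul_assoc, Matrix.mul_assoc, ← Matrix.mul_assoc D.g, D.ggi, Matrix.one_mul, h2,
        Matrix.mul_zero]
    rw [Dat.G, Dat.F, Matrix.mul_assoc, fe, Matrix.sub_mul, Matrix.one_mul, Matrix.mul_assoc, e1,
      Matrix.mul_zero, sub_zero, ← Matrix.mul_assoc, D.ggi, Matrix.one_mul]
  have hVe : fr q D.V * fr q D.e = 0 := by rw [← fmul, h2, fzero]
  have hVg : D.V * D.g = D.Ti * fr q D.V := by
    rw [D.frV, Matrix.mul_assoc D.T, ← Matrix.mul_assoc D.Ti, D.TiT, Matrix.one_mul]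
  have h10 : D.V * D.G = 0 := by
    rw [Dat.G, ← Matrix.mul_assoc, hVg, Matrix.mul_assoc, hVe, Matrix.mul_zero]
  have h7 : D.F * D.G = fr q D.e := by
    rw [Dat.F, Matrix.mul_assoc]
    have : D.e * D.G = D.G := by
      rw [Dat.e, Matrix.sub_mul, Matrix.one_mul, Matrix.mul_assoc, h10, Matrix.mul_zero, sub_zero]
    rw [this, Dat.G, ← Matrix.mul_assoc, D.gig, Matrix.one_mul]
  have h8 : D.G * fr q D.e = D.G := by
    rw [Dat.G, Matrix.mul_assoc, ← fmul, h1]
  have h9 : D.G * fr q D.W = 0 := by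
    rw [Dat.G, Matrix.mul_assoc, ← fmul, h3, fzero, Matrix.mul_zero]
  have h11 : D.H * fr q D.W = D.W := by
    rw [Dat.H, Matrix.add_mul, h9, zero_add, Matrix.mul_assoc, ← fmul, D.VW, fone, Matrix.mul_one]
  have h12 : D.H * fr q D.e * D.F = D.e := by
    rw [Dat.H, Matrix.add_mul, Matrix.add_mul, h8, h6, Matrix.mul_assoc D.W, hVe, Matrix.mul_zero,
      Matrix.zero_mul, add_zero]
  exact ⟨h1, h2, h3, h4, h5, h6, h7, h8, h9, h10, h11, h12⟩

end Pool.Agent.Helper80.ET
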